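import Pool.Agent.Helper24.UN.Full
import Pool.Agent.Helper81.AN.TrS
import Pool.Agent.Helper81.TD.Good
import Pool.Agent.Helper68.TS.Main
import Pool.Agent.Helper68.LI.Main
import Pool.Agent.Helper68.LI.Iso
import Pool.Agent.Helper68.BR.GoodB

/-!
# Q1 for groups with alternating composition factors and composition factors with a split BN-pair

`result`: Q1 holds for every prime `p ≥ 5` and every finite group `G` with a series
`1 = M 0 ⊴ M 1 ⊴ ... ⊴ M n = G` each of whose factors is abelian, or has cyclic Sylow `p`-subgroups, or is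
isomorphic to an alternating group (of any degree) or to `PSL₂(k)` (`k` any finite field), or is a group
all of whose subgroups of index prime to `p` have a series with factors which are of one of these four
kinds, or are groups `PSLₙ(k)` with `n ≥ 3` and `p ∣ |k| - 1`, or are simple groups with a split BN-pair at
`p` of some characteristic (`CharBNAt`, a condition on the simple group alone), or are simple groups of
which all finite perfect central extensions by groups of order prime to `p` have a split BN-pair at `p`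
(`BNAt`) or a split Bruhat decomposition at `p` (`BruhatAt`).

Remark (not used, not part of the theorem): all finite simple groups of Lie type over `F_q` (`q` as in the
ATLAS, a power of `r`) with `p ∣ q - 1` satisfy `CharBNAt p`, with `P` the Sylow `p`-subgroup of the image
of the maximally split torus, `U` a Sylow `r`-subgroup and `N` the monomial subgroup, except `Sz(8)` and
`²F₄(8)` for `p = 7` (Carter, Simple groups of Lie type; Gorenstein, Lyons, Solomon, The classification of
the finite simple groups 3): a `T`-invariant pairing of the layers of the roots `α`, `β` exists only if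
`α + r ^ k β` is trivial on `T` for some `k`, which is impossible by pairing with the coroots.

This is joint work of many agents of the team (helper81: the covering groups of the alternating groups
and the deformation argument for the groups with a BN-pair; helper68: the lifting theorem for central
extensions; see the departures files).
-/

open scoped commutatorElement

namespace Pool.Agent.Results.MP_5ecade_al.AlternatingAndCharBNPair

/-- The set of irreducible complex characters of `G`. -/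
def Irr (G : Type) [Group G] : Set (G → ℂ) :=
  {χ | ∃ (V : Type) (_ : AddCommGroup V) (_ : Module ℂ V) (_ : FiniteDimensional ℂ V)
    (ρ : Representation ℂ G V), ρ.IsIrreducible ∧ χ = ρ.character}

/-- The set of irreducible complex characters of `G` of degree not divisible by `p`. -/
def IrrP (p : ℕ) (G : Type) [Group G] : Set (G → ℂ) :=
  {χ | χ ∈ Irr G ∧ ∃ n : ℕ, χ 1 = n ∧ ¬ p ∣ n}

/-- Q1 for the prime `p` and the group `G`: for every Sylow `p`-subgroup `P` of `G` there is a
bijection from the irreducible characters of `G` of degree prime to `p` onto those of the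
normalizer of `P` which preserves the degree up to sign modulo `p`. -/
def McKayCongr (p : ℕ) (G : Type) [Group G] : Prop :=
  ∀ P : Sylow p G, ∃ e : IrrP p G ≃ IrrP p (Subgroup.normalizer (P : Set G)),
    ∀ χ : IrrP p G, ∃ m n : ℕ, χ.1 1 = m ∧ (e χ).1 1 = n ∧
      ((m : ℤ) ≡ n [ZMOD p] ∨ (m : ℤ) ≡ -n [ZMOD p])

/-- The group `K` has a split Bruhat decomposition at `p`: there are an abelian Sylow `p`-subgroup
`P` of `K` and a subgroup `U` normalized by `P` and without nontrivial fixed points of `P` such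
that `K = U N U`, where `N` is the normalizer of `P`, and every automorphism of `K` which stabilizes
`P` maps `U` to a conjugate of `U` under an element of `N`. -/
def BruhatAt (p : ℕ) (K : Type) [Group K] : Prop :=
  ∃ P U : Subgroup K, IsPGroup p P ∧ ¬ p ∣ P.index ∧ (∀ a ∈ P, ∀ b ∈ P, a * b = b * a) ∧
    (∀ x ∈ P, ∀ u ∈ U, x * u * x⁻¹ ∈ U) ∧
    (∀ u ∈ U, (∀ x ∈ P, x * u = u * x) → u = 1) ∧
    (∀ g : K, ∃ u ∈ U, ∃ n ∈ Subgroup.normalizer (P : Set K), ∃ u' ∈ U, g = u * n * u') ∧
    ∀ α : MulAut K, (∀ x, α x ∈ P ↔ x ∈ P) →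
      ∃ n ∈ Subgroup.normalizer (P : Set K), ∀ x, n⁻¹ * α x * n ∈ U ↔ x ∈ U

/-- The double coset `U n U`. -/
def DC {K : Type} [Group K] (U : Subgroup K) (n x : K) : Prop :=
  ∃ u ∈ U, ∃ u' ∈ U, x = u * n * u'

/-- The torus: the centralizer of `P` in `N`. -/
def Tor {K : Type} [Group K] (P N : Subgroup K) : Subgroup K :=
  N ⊓ Subgroup.centralizer (P : Set K)

/-- The simple elements of `N`: `m ∉ T`, `m² ∈ T` and `m u n` lies in `U m n T U` or in `U n T U` for all
`u ∈ U` and `n ∈ N`, where `T` is the torus. -/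
def IsSim {K : Type} [Group K] (P U N : Subgroup K) (m : K) : Prop :=
  m ∈ N ∧ m ∉ Tor P N ∧ m * m ∈ Tor P N ∧ ∀ n ∈ N, ∀ u ∈ U, ∃ t ∈ Tor P N,
    DC U (m * n * t) (m * u * n) ∨ DC U (n * t) (m * u * n)

/-- The conditions of a split BN-pair at `p`: `P` is an abelian `p`-group, `P ≤ N`, `P` is normalized by
`N`, the torus `T` (the centralizer of `P` in `N`) is the set of elements of `N` which normalize `U`, only
the identity of `U` commutes with `P`, `K = U N U`, `N` is generated by `T` and the simple elements, and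
every element `x` of `N` of `p`-power order with `⁅⁅y, x⁆, x⁆ = 1` for all `y ∈ P` lies in `P`. -/
def SplitBN (p : ℕ) {K : Type} [Group K] (P U N : Subgroup K) : Prop :=
  IsPGroup p P ∧ (∀ a ∈ P, ∀ b ∈ P, a * b = b * a) ∧ P ≤ N ∧
    (∀ n ∈ N, ∀ x ∈ P, n * x * n⁻¹ ∈ P) ∧
    (∀ n ∈ N, (∀ u ∈ U, n * u * n⁻¹ ∈ U) ↔ n ∈ Tor P N) ∧
    (∀ u ∈ U, (∀ x ∈ P, x * u = u * x) → u = 1) ∧
    (∀ g, ∃ n ∈ N, DC U n g) ∧
    (∀ n ∈ N, n ∈ Subgroup.closure ({m | IsSim P U N m} ∪ (Tor P N : Set K))) ∧
    ∀ x ∈ N, (∃ k : ℕ, x ^ p ^ k = 1) → (∀ y ∈ P, ⁅⁅y, x⁆, x⁆ = 1) → x ∈ P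

/-- The group `K` has a split BN-pair at `p`, and every automorphism of `K` which stabilizes `P` maps `U`
to a conjugate of `U` under an element of `N`. -/
def BNAt (p : ℕ) (K : Type) [Group K] : Prop :=
  ∃ P U N : Subgroup K, SplitBN p P U N ∧
    ∀ α : MulAut K, (∀ x, α x ∈ P ↔ x ∈ P) → ∃ n ∈ N, ∀ x, n⁻¹ * α x * n ∈ U ↔ x ∈ U

/-- Every `T`-invariant map `β : X × Y → A` to an abelian group `A` which is multiplicative in both
variables and trivial on `X₀ × Y` and on `X × Y₀` (and, if `a` holds, on the pairs `(x, x)`) is trivial: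
there are no non-trivial `T`-invariant pairings of `X / X₀` and `Y / Y₀`. -/
def NoPairing {F : Type} [Group F] (T X₀ X Y₀ Y : Subgroup F) (a : Prop) : Prop :=
  ∀ (A : Type) [CommGroup A] (β : F → F → A),
    (∀ x ∈ X, ∀ x' ∈ X, ∀ y ∈ Y, β (x * x') y = β x y * β x' y) →
    (∀ x ∈ X, ∀ y ∈ Y, ∀ y' ∈ Y, β x (y * y') = β x y * β x y') →
    (∀ x ∈ X₀, ∀ y ∈ Y, β x y = 1) → (∀ x ∈ X, ∀ y ∈ Y₀, β x y = 1) →
    (∀ t ∈ T, ∀ x ∈ X, ∀ y ∈ Y, β (t * x * t⁻¹) (t * y * t⁻¹) = β x y) →
    (a → ∀ x ∈ X, β x x = 1) →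
    ∀ x ∈ X, ∀ y ∈ Y, β x y = 1

/-- The group `F` has a split BN-pair at `p` in which `U` is an `r`-group for a prime `r` which does not
divide the order of the torus `T`, and `U` has a central series `1 = V 0 ≤ V 1 ≤ ... ≤ V m = U` of
`T`-stable subgroups such that there are no non-trivial `T`-invariant pairings of two different factors
and no non-trivial `T`-invariant alternating pairings of a factor with itself. (The conditions are on the
group `F` alone: nothing is assumed on its automorphisms and central extensions.) -/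
def CharBNAt (p : ℕ) (F : Type) [Group F] : Prop :=
  ∃ (r : ℕ) (P U N : Subgroup F), r.Prime ∧ SplitBN p P U N ∧ IsPGroup r U ∧
    ¬ r ∣ Nat.card (Tor P N) ∧
    ∃ (m : ℕ) (V : ℕ → Subgroup F), V 0 = ⊥ ∧ V m = U ∧
      ∀ i < m, V i ≤ V (i + 1) ∧
        (∀ t ∈ Tor P N, ∀ v ∈ V (i + 1), t * v * t⁻¹ ∈ V (i + 1)) ∧
        (∀ u ∈ U, ∀ v ∈ V (i + 1), ⁅u, v⁆ ∈ V i) ∧
        ∀ j < m, NoPairing (Tor P N) (V i) (V (i + 1)) (V j) (V (j + 1)) (i = j)

/-- The group `F` is `PSLₙ(k)` for some `n ≥ 3` and some finite field `k` with `p ∣ |k| - 1`, or it has a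
split BN-pair at `p` of some characteristic (`CharBNAt`), or all finite perfect central extensions of `F`
by groups of order prime to `p` have a split BN-pair or a split Bruhat decomposition at `p`. -/
def LieLike (p : ℕ) (F : Type) [Group F] : Prop :=
  (∃ (n : ℕ) (k : Type) (_ : Field k) (_ : Finite k), 3 ≤ n ∧ p ∣ Nat.card k - 1 ∧
      Nonempty (F ≃* Matrix.ProjectiveSpecialLinearGroup (Fin n) k)) ∨
    CharBNAt p F ∨
    ∀ (K : Type) [Group K] [Finite K], ⁅(⊤ : Subgroup K), (⊤ : Subgroup K)⁆ = ⊤ →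
      Nonempty ((K ⧸ Subgroup.center K) ≃* F) → ¬ p ∣ Nat.card (Subgroup.center K) →
      BNAt p K ∨ BruhatAt p K

/-- The group `F` is a basic factor: it is abelian, or its Sylow `p`-subgroups are cyclic, or it is
isomorphic to an alternating group or to `PSL₂(k)` for some finite field `k`, or it is simple and
`LieLike`. -/
def Basic (p : ℕ) (F : Type) [Group F] : Prop :=
  (∀ a b : F, a * b = b * a) ∨ (∀ P : Sylow p F, IsCyclic P) ∨
    (∃ m : ℕ, Nonempty (F ≃* alternatingGroup (Fin m))) ∨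
    (∃ (k : Type) (_ : Field k) (_ : Finite k),
      Nonempty (F ≃* Matrix.ProjectiveSpecialLinearGroup (Fin 2) k)) ∨
    (IsSimpleGroup F ∧ LieLike p F)

/-- The group `G` has a series `1 = M 0 ⊴ M 1 ⊴ ... ⊴ M n = G` with factors in the class `R`. -/
def HasSeries (R : (F : Type) → [Group F] → Prop) (G : Type) [Group G] : Prop :=
  ∃ (n : ℕ) (M : ℕ → Subgroup G), M 0 = ⊥ ∧ M n = ⊤ ∧
    ∀ i < n, M i ≤ M (i + 1) ∧ ∃ _ : ((M i).subgroupOf (M (i + 1))).Normal,
      R (M (i + 1) ⧸ (M i).subgroupOf (M (i + 1)))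

/-- The group `F` is an allowed factor: it is abelian, or its Sylow `p`-subgroups are cyclic, or it is
isomorphic to an alternating group or to `PSL₂(k)` for some finite field `k`, or all its subgroups of
index prime to `p` have a series with basic factors. -/
def Allowed (p : ℕ) (F : Type) [Group F] : Prop :=
  (∀ a b : F, a * b = b * a) ∨ (∀ P : Sylow p F, IsCyclic P) ∨
    (∃ m : ℕ, Nonempty (F ≃* alternatingGroup (Fin m))) ∨
    (∃ (k : Type) (_ : Field k) (_ : Finite k),
      Nonempty (F ≃* Matrix.ProjectiveSpecialLinearGroup (Fin 2) k)) ∨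
    (∀ L : Subgroup F, ¬ p ∣ L.index → HasSeries (fun X [Group X] => Basic p X) L)

section proof

open Pool.Agent.Helper68.BR Pool.Agent.Helper68.LI

private theorem ch_of {p : ℕ} {F : Type} [Group F] (h : CharBNAt p F) :
    ∃ (r : ℕ) (_ : r.Prime) (P U N : Subgroup F), Ch p r P U N := by
  obtain ⟨r, P, U, N, hr, ⟨a1, a2, a3, a4, a5, a6, a7, a8, a9⟩, h1, h2, m, V, h3, h4, h5⟩ := h
  refine ⟨r, hr, P, U, N, ⟨a1, a2, a3, a4, a5, a6, a7, a8, a9⟩, h1, h2, m, V, h3, h4,
    fun i hi => (h5 i hi).1, fun i hi => (h5 i hi).2.1, fun i hi => ?_,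
    fun i hi j hj => (h5 i hi).2.2.2 j hj⟩
  rw [h4]
  exact (h5 i hi).2.2.1

private theorem of_ch {p r : ℕ} {F : Type} [Group F] (hr : r.Prime) {P U N : Subgroup F}
    (h : Ch p r P U N) : CharBNAt p F := by
  obtain ⟨⟨a1, a2, a3, a4, a5, a6, a7, a8, a9⟩, h1, h2, m, V, h3, h4, h5⟩ := h
  refine ⟨r, P, U, N, hr, ⟨a1, a2, a3, a4, a5, a6, a7, a8, a9⟩, h1, h2, m, V, h3, h4,
    fun i hi => ⟨h5.le i hi, h5.stab i hi, ?_, fun j hj => h5.pair i hi j hj⟩⟩
  rw [← h4]
  exact h5.cent i hi

private theorem lie_iso (p : ℕ) : IsoCl (fun F [Group F] => LieLike p F) := by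
  intro X Y _ _ e h
  rcases h with ⟨n, k, h1, h2, h3, h4, ⟨e'⟩⟩ | h | h
  · exact Or.inl ⟨n, k, h1, h2, h3, h4, ⟨e.symm.trans e'⟩⟩
  · obtain ⟨r, hr, P, U, N, h⟩ := ch_of h
    exact Or.inr (Or.inl (of_ch hr (h.iso e.symm)))
  · refine Or.inr (Or.inr ?_)
    intro K _ _ hK he hz
    obtain ⟨e'⟩ := he
    exact h K hK ⟨e'.trans e.symm⟩ hz

private theorem lie_good {p : ℕ} [Fact p.Prime] (h5 : 5 ≤ p) (F : Type) [Group F]
    (hF : IsSimpleGroup F) (hF' : ¬ ∀ a b : F, a * b = b * a) (h : LieLike p F) (K : Type) [Group K]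
    [Finite K] (hK : ⁅(⊤ : Subgroup K), (⊤ : Subgroup K)⁆ = ⊤)
    (he : Nonempty ((K ⧸ Subgroup.center K) ≃* F)) (hz : ¬ p ∣ Nat.card (Subgroup.center K))
    (hp : p ∣ Nat.card K) : Pool.Agent.Helper7.MK.Good p K := by
  rcases h with ⟨n, k, h1, h2, h3, h4, ⟨e'⟩⟩ | h | h
  · obtain ⟨e⟩ := he
    obtain ⟨P, U, N, hB⟩ := Pool.Agent.Helper68.TS.bn_of_psl h3 h5 h4 hz (e.trans e')
    exact Pool.Agent.Helper81.TD.good_of_bn K hz hp F hF hF' ⟨e⟩ hB
  · obtain ⟨e⟩ := he
    obtain ⟨r, hr, P, U, N, h⟩ := ch_of h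
    have : Fact r.Prime := ⟨hr⟩
    have : Finite F := Finite.of_equiv _ e.toEquiv
    obtain ⟨P, U, N, hB⟩ := bn_of_ch h hz e
    exact Pool.Agent.Helper81.TD.good_of_bn K hz hp F hF hF' ⟨e⟩ hB
  · rcases h K hK he hz with ⟨P, U, N, ⟨a1, a2, a3, a4, a5, a6, a7, a8, a9⟩, a10⟩ |
      ⟨P, U, a1, a2, a3, a4, a5, a6, a7⟩
    · exact Pool.Agent.Helper81.TD.good_of_bn K hz hp F hF hF' he
        ⟨a1, a2, a3, a4, a5, a6, a7, a8, a9, a10⟩
    · exact good_of_bru K hK hz hp F hF hF' he ⟨a1, a2, a3, a4, a5, a6⟩ a7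

end proof

/-- Q1 holds for every prime `p ≥ 5` and every finite group `G` with a series with allowed factors. -/
theorem result (p : ℕ) [Fact p.Prime] (h5 : 5 ≤ p) (G : Type) [Group G] [Finite G]
    (h : HasSeries (fun X [Group X] => Allowed p X) G) : McKayCongr p G :=
  Pool.Agent.Helper24.UN.final_full p (by omega) (lie_iso p) (fun F [Group F] => lie_good h5 F)
    (fun m hm => Pool.Agent.Helper81.AN.pgood_all p h5 m hm) G h

end Pool.Agent.Results.MP_5ecade_al.AlternatingAndCharBNPair
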