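import Pool.Agent.Helper14.LC.AbCyc

/-!
# McKay bijections with congruences from conditions on the Sylow normalizer

`result`: Q1 holds for the prime `p` and every finite group `G` which has a subnormal series each of
whose factors `F` is abelian or has a Sylow `p`-subgroup `P` such that
* `P` is abelian and `[P, N_F(P)]` is cyclic, or
* `p` is odd and `P` is metacyclic and nonabelian, or
* `P` has no quotient isomorphic to `C_p ≀ C_p`, and `P ∩ L` is cyclic for some normal subgroup `L`
  of `p`-power index of `N_F(P)`,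
or, for `p ≥ 5`, is isomorphic to a group of permutations of fewer than `3 p` points.
-/

namespace Pool.Agent.Results.MP_5ecade_al.LocalConditions

/-- The set of irreducible complex characters of `G`. -/
def Irr (G : Type) [Group G] : Set (G → ℂ) :=
  {χ | ∃ (V : Type) (_ : AddCommGroup V) (_ : Module ℂ V) (_ : FiniteDimensional ℂ V)
    (ρ : Representation ℂ G V), ρ.IsIrreducible ∧ χ = ρ.character}

/-- The set of irreducible complex characters of `G` of degree not divisible by `p`. -/
def IrrP (p : ℕ) (G : Type) [Group G] : Set (G → ℂ) :=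
  {χ | χ ∈ Irr G ∧ ∃ n : ℕ, χ 1 = n ∧ ¬ p ∣ n}

/-- Q1 for the prime `p` and the group `G`: for every Sylow `p`-subgroup `P` of `G` there is a
bijection from the irreducible characters of `G` of degree prime to `p` onto those of the
normalizer of `P` which preserves the degree up to sign modulo `p`. -/
def McKayCongr (p : ℕ) (G : Type) [Group G] : Prop :=
  ∀ P : Sylow p G, ∃ e : IrrP p G ≃ IrrP p (Subgroup.normalizer (P : Set G)),
    ∀ χ : IrrP p G, ∃ m n : ℕ, χ.1 1 = m ∧ (e χ).1 1 = n ∧
      ((m : ℤ) ≡ n [ZMOD p] ∨ (m : ℤ) ≡ -n [ZMOD p])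

/-- The group is abelian. -/
def Abelian (F : Type) [Group F] : Prop := ∀ a b : F, a * b = b * a

/-- No quotient of `P` is isomorphic to the wreath product `C_p ≀ C_p` of order `p ^ (p + 1)`. -/
def NoWreath (p : ℕ) (P : Type) [Group P] : Prop :=
  ∀ (R : Subgroup P) [R.Normal], ¬ Nonempty ((P ⧸ R) ≃*
    RegularWreathProduct (Multiplicative (ZMod p)) (Multiplicative (ZMod p)))

/-- `P ∩ L` is cyclic for some normal subgroup `L` of the normalizer of `P` of `p`-power index. -/
def LocCyclic (p : ℕ) {F : Type} [Group F] (P : Subgroup F) : Prop :=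
  ∃ (L : Subgroup (Subgroup.normalizer (P : Set F))) (_ : L.Normal),
    IsPGroup p (Subgroup.normalizer (P : Set F) ⧸ L) ∧
    IsCyclic (P.subgroupOf (Subgroup.normalizer (P : Set F)) ⊓ L :
      Subgroup (Subgroup.normalizer (P : Set F)))

/-- `P` has a cyclic normal subgroup with cyclic quotient. -/
def Metacyclic (P : Type) [Group P] : Prop :=
  ∃ (C : Subgroup P) (_ : C.Normal), IsCyclic C ∧ IsCyclic (P ⧸ C)

/-- The allowed factors. -/
def Allowed (p : ℕ) (F : Type) [Group F] : Prop :=
  Abelian F ∨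
  (∃ P : Sylow p F, Abelian P ∧
    IsCyclic (⁅(P : Subgroup F), Subgroup.normalizer (P : Set F)⁆ : Subgroup F)) ∨
  (p ≠ 2 ∧ ∃ P : Sylow p F, Metacyclic P ∧ ¬ Abelian P) ∨
  (∃ P : Sylow p F, NoWreath p P ∧ LocCyclic p (P : Subgroup F)) ∨
  (5 ≤ p ∧ ∃ n < 3 * p, ∃ ρ : F →* Equiv.Perm (Fin n), Function.Injective ρ)

section proof

open Pool.Agent.Helper24.S7 (InCC)

private lemma inCC_ext {p : ℕ} {G : Type} [Group G] (N : Subgroup G) [N.Normal]
    (h1 : InCC p N) (h2 : InCC p (G ⧸ N)) : InCC p G := by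
  intro S _ hS hn hinv hp
  rcases Pool.Agent.Helper14.LC.involved_ext hS N hinv with h | h
  · exact h1 S hS hn h hp
  · exact h2 S hS hn h hp

private lemma inCC_congr {p : ℕ} {G G' : Type} [Group G] [Group G'] [Finite G] [Finite G']
    (e : G ≃* G') (h : InCC p G) : InCC p G' :=
  (Pool.Agent.Helper24.S7.inCC_class p).down G G' e.toMonoidHom e.surjective h

private lemma abelian_inCC {p : ℕ} {F : Type} [Group F] (h : Abelian F) : InCC p F := by
  intro S _ hS hn hinv hp
  obtain ⟨H, L, hL, ⟨e⟩⟩ := hinv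
  exfalso
  apply hn
  intro a b
  obtain ⟨x, rfl⟩ := e.surjective a
  obtain ⟨y, rfl⟩ := e.surjective b
  obtain ⟨x, rfl⟩ := QuotientGroup.mk'_surjective L x
  obtain ⟨y, rfl⟩ := QuotientGroup.mk'_surjective L y
  rw [← map_mul, ← map_mul, ← map_mul, ← map_mul]
  have hxy : x * y = y * x := Subtype.ext (h x y)
  rw [hxy]

private lemma no_wreath {p : ℕ} {P : Type} [Group P] (h : NoWreath p P)
    (f : P →* RegularWreathProduct (Multiplicative (ZMod p)) (Multiplicative (ZMod p))) :
    ¬ Function.Surjective f :=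
  fun hf => h f.ker ⟨QuotientGroup.quotientKerEquivOfSurjective f hf⟩

private lemma allowed_inCC {p : ℕ} [Fact p.Prime] {F : Type} [Group F] [Finite F]
    (h : Allowed p F) : InCC p F := by
  rcases h with h | ⟨P, h1, h2⟩ | ⟨hp, P, h1, h2⟩ | ⟨P, h1, L, hL, h2, h3⟩ | ⟨hp, n, hn, ρ, hρ⟩
  · exact abelian_inCC h
  · exact Pool.Agent.Helper14.LC.inCC_abelian F P h1 h2
  · exact Pool.Agent.Helper14.LC.inCC_metacyclic hp F P h1 h2
  · exact Pool.Agent.Helper14.LC.inCC_local F P (no_wreath h1) L h2 h3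
  · exact Pool.Agent.Helper14.LC.inCC_perm hp F hn ρ hρ

private lemma inCC_series {p : ℕ} [Fact p.Prime] {G : Type} [Group G] [Finite G] (H : ℕ → Subgroup G)
    (h0 : H 0 = ⊥) (n : ℕ) (hs : ∀ i < n, H i ≤ H (i + 1) ∧
      ∃ _ : ((H i).subgroupOf (H (i + 1))).Normal,
        Allowed p (H (i + 1) ⧸ (H i).subgroupOf (H (i + 1)))) :
    ∀ i ≤ n, InCC p (H i) := by
  intro i
  induction i with
  | zero =>
    intro _
    apply abelian_inCC
    have : Subsingleton (H 0) := by
      rw [h0]
      infer_instance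
    intro a b
    exact Subsingleton.elim _ _
  | succ i ih =>
    intro hi
    obtain ⟨h1, h2, h3⟩ := hs i hi
    exact inCC_ext ((H i).subgroupOf (H (i + 1)))
      (inCC_congr (Subgroup.subgroupOfEquivOfLe h1).symm (ih (Nat.le_of_succ_le hi)))
      (allowed_inCC h3)

end proof

/-- Q1 holds for `p` and every finite group `G` with a series
`1 = H 0 ⊴ H 1 ⊴ ... ⊴ H n = G` of allowed factors. -/
theorem result (p : ℕ) [Fact p.Prime] (G : Type) [Group G] [Finite G] (n : ℕ)
    (H : ℕ → Subgroup G) (h0 : H 0 = ⊥) (h1 : H n = ⊤)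
    (hs : ∀ i < n, H i ≤ H (i + 1) ∧ ∃ _ : ((H i).subgroupOf (H (i + 1))).Normal,
      Allowed p (H (i + 1) ⧸ (H i).subgroupOf (H (i + 1)))) :
    McKayCongr p G := by
  have h2 := inCC_series H h0 n hs n le_rfl
  rw [h1] at h2
  exact Pool.Agent.Helper24.S7.final_of (fun K _ _ => Pool.Agent.Helper42.IR.F.hII K) G
    (inCC_congr (Subgroup.topEquiv (G := G)) h2)

end Pool.Agent.Results.MP_5ecade_al.LocalConditions
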