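import Pool.Agent.Helper42.INC.Red3
import Pool.Agent.Helper81.MR.Layer

/-!
# A reduction theorem for the congruence form of the McKay statement

For every prime `p`, Q1 for `p` and all finite groups follows from Q1 for `p` and the finite groups
`G` of the class `Core p` which have a normal subgroup `K`, contained in every noncentral normal subgroup
and with centralizer `Z(G)`, which is a central product of the conjugates of a quasisimple group `S`, such
that the simple group `S / Z(S)` is not settled: its Sylow `p`-subgroups are not cyclic and, if `p ≥ 5`, it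
is not an alternating group, not `PSL₂(k)`, not `PSLₙ(k)` with `p ∣ |k| - 1`, and has no split BN-pair at
`p` of some characteristic (`CharBNAt`).

Remark (not used, not part of the theorem): all finite simple groups of Lie type over `F_q` with
`p ∣ q - 1` satisfy `CharBNAt p`, except `Sz(8)` and `²F₄(8)` for `p = 7` (see the file of the hand-in
AlternatingAndCharBNPair).
-/

open scoped Pointwise IsMulCommutative commutatorElement

namespace Pool.Agent.Results.MP_5ecade_al.MinimalReduction

open Pool.Agent.Helper42.INC

/-- The general conditions on the groups to which Q1 is reduced. -/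
structure Core (p : ℕ) (G : Type) [Group G] : Prop where
  /-- the order is divisible by `p` -/
  dvd_card : p ∣ Nat.card G
  /-- there is no nontrivial normal `p`-subgroup -/
  opcore : ∀ K : Subgroup G, K.Normal → IsPGroup p K → K = ⊥
  /-- the center is cyclic -/
  cyclic : IsCyclic (Subgroup.center G)
  /-- the order of the center is not divisible by `p` -/
  coprime : ¬ p ∣ Nat.card (Subgroup.center G)
  /-- every abelian normal subgroup is central -/
  abelian : ∀ A : Subgroup G, A.Normal → IsMulCommutative A → A ≤ Subgroup.center G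
  /-- every noncentral normal subgroup is supplemented by the normalizer of every Sylow
  `p`-subgroup -/
  supplement : ∀ M : Subgroup G, M.Normal → ¬ M ≤ Subgroup.center G → ∀ P : Sylow p G,
    M ⊔ Subgroup.normalizer (P : Set G) = ⊤
  /-- the centralizer of a normal subgroup of order divisible by `p` is the center -/
  centralizer : ∀ M : Subgroup G, M.Normal → p ∣ Nat.card M →
    Subgroup.centralizer (M : Set G) = Subgroup.center G

/-- The double coset `U n U`. -/
def DC {K : Type} [Group K] (U : Subgroup K) (n x : K) : Prop :=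
  ∃ u ∈ U, ∃ u' ∈ U, x = u * n * u'

/-- The torus: the centralizer of `P` in `N`. -/
def Tor {K : Type} [Group K] (P N : Subgroup K) : Subgroup K :=
  N ⊓ Subgroup.centralizer (P : Set K)

/-- The simple elements of `N`: `m ∉ T`, `m² ∈ T` and `m u n` lies in `U m n T U` or in `U n T U` for all
`u ∈ U` and `n ∈ N`, where `T` is the torus. -/
def IsSim {K : Type} [Group K] (P U N : Subgroup K) (m : K) : Prop :=
  m ∈ N ∧ m ∉ Tor P N ∧ m * m ∈ Tor P N ∧ ∀ n ∈ N, ∀ u ∈ U, ∃ t ∈ Tor P N,
    DC U (m * n * t) (m * u * n) ∨ DC U (n * t) (m * u * n)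

/-- The conditions of a split BN-pair at `p`: `P` is an abelian `p`-group, `P ≤ N`, `P` is normalized by
`N`, the torus `T` (the centralizer of `P` in `N`) is the set of elements of `N` which normalize `U`, only
the identity of `U` commutes with `P`, `K = U N U`, `N` is generated by `T` and the simple elements, and
every element `x` of `N` of `p`-power order with `⁅⁅y, x⁆, x⁆ = 1` for all `y ∈ P` lies in `P`. -/
def SplitBN (p : ℕ) {K : Type} [Group K] (P U N : Subgroup K) : Prop :=
  IsPGroup p P ∧ (∀ a ∈ P, ∀ b ∈ P, a * b = b * a) ∧ P ≤ N ∧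
    (∀ n ∈ N, ∀ x ∈ P, n * x * n⁻¹ ∈ P) ∧
    (∀ n ∈ N, (∀ u ∈ U, n * u * n⁻¹ ∈ U) ↔ n ∈ Tor P N) ∧
    (∀ u ∈ U, (∀ x ∈ P, x * u = u * x) → u = 1) ∧
    (∀ g, ∃ n ∈ N, DC U n g) ∧
    (∀ n ∈ N, n ∈ Subgroup.closure ({m | IsSim P U N m} ∪ (Tor P N : Set K))) ∧
    ∀ x ∈ N, (∃ k : ℕ, x ^ p ^ k = 1) → (∀ y ∈ P, ⁅⁅y, x⁆, x⁆ = 1) → x ∈ P

/-- Every `T`-invariant map `β : X × Y → A` to an abelian group `A` which is multiplicative in both
variables and trivial on `X₀ × Y` and on `X × Y₀` (and, if `a` holds, on the pairs `(x, x)`) is trivial: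
there are no non-trivial `T`-invariant pairings of `X / X₀` and `Y / Y₀`. -/
def NoPairing {F : Type} [Group F] (T X₀ X Y₀ Y : Subgroup F) (a : Prop) : Prop :=
  ∀ (A : Type) [CommGroup A] (β : F → F → A),
    (∀ x ∈ X, ∀ x' ∈ X, ∀ y ∈ Y, β (x * x') y = β x y * β x' y) →
    (∀ x ∈ X, ∀ y ∈ Y, ∀ y' ∈ Y, β x (y * y') = β x y * β x y') →
    (∀ x ∈ X₀, ∀ y ∈ Y, β x y = 1) → (∀ x ∈ X, ∀ y ∈ Y₀, β x y = 1) →
    (∀ t ∈ T, ∀ x ∈ X, ∀ y ∈ Y, β (t * x * t⁻¹) (t * y * t⁻¹) = β x y) →
    (a → ∀ x ∈ X, β x x = 1) →
    ∀ x ∈ X, ∀ y ∈ Y, β x y = 1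

/-- The group `F` has a split BN-pair at `p` in which `U` is an `r`-group for a prime `r` which does not
divide the order of the torus `T`, and `U` has a central series `1 = V 0 ≤ V 1 ≤ ... ≤ V m = U` of
`T`-stable subgroups such that there are no non-trivial `T`-invariant pairings of two different factors
and no non-trivial `T`-invariant alternating pairings of a factor with itself. (The conditions are on the
group `F` alone: nothing is assumed on its automorphisms and central extensions.) -/
def CharBNAt (p : ℕ) (F : Type) [Group F] : Prop :=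
  ∃ (r : ℕ) (P U N : Subgroup F), r.Prime ∧ SplitBN p P U N ∧ IsPGroup r U ∧
    ¬ r ∣ Nat.card (Tor P N) ∧
    ∃ (m : ℕ) (V : ℕ → Subgroup F), V 0 = ⊥ ∧ V m = U ∧
      ∀ i < m, V i ≤ V (i + 1) ∧
        (∀ t ∈ Tor P N, ∀ v ∈ V (i + 1), t * v * t⁻¹ ∈ V (i + 1)) ∧
        (∀ u ∈ U, ∀ v ∈ V (i + 1), ⁅u, v⁆ ∈ V i) ∧
        ∀ j < m, NoPairing (Tor P N) (V i) (V (i + 1)) (V j) (V (j + 1)) (i = j)

/-- The simple group `F` is settled: its Sylow `p`-subgroups are cyclic, or `p ≥ 5` and it is isomorphic to
an alternating group, or to `PSL₂(k)`, or to `PSLₙ(k)` with `n ≥ 3` and `p ∣ |k| - 1` (`k` a finite field), or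
it has a split BN-pair at `p` of some characteristic. -/
def Settled (p : ℕ) (F : Type) [Group F] : Prop :=
  (∀ P : Sylow p F, IsCyclic P) ∨
    (5 ≤ p ∧ ((∃ m : ℕ, Nonempty (F ≃* alternatingGroup (Fin m))) ∨
      (∃ (k : Type) (_ : Field k) (_ : Finite k),
        Nonempty (F ≃* Matrix.ProjectiveSpecialLinearGroup (Fin 2) k)) ∨
      (∃ (n : ℕ) (k : Type) (_ : Field k) (_ : Finite k), 3 ≤ n ∧ p ∣ Nat.card k - 1 ∧
        Nonempty (F ≃* Matrix.ProjectiveSpecialLinearGroup (Fin n) k)) ∨
      CharBNAt p F))

/-- The conditions on the normal subgroup `K` of `G` and its subgroup `S`: `K` is noncentral and contained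
in every noncentral normal subgroup of `G`, its centralizer is the center of `G`, and it is generated by
the conjugates of `S` in `G`; distinct conjugates commute; `S` is normal in `K` and perfect, and the group
`S / Z(S)` is simple and not settled. -/
structure Layer (p : ℕ) {G : Type} [Group G] (K S : Subgroup G) : Prop where
  /-- `K` is normal -/
  normal : K.Normal
  /-- `K` is not central -/
  noncentral : ¬ K ≤ Subgroup.center G
  /-- `K` is contained in every noncentral normal subgroup -/
  least : ∀ N : Subgroup G, N.Normal → ¬ N ≤ Subgroup.center G → K ≤ N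
  /-- the centralizer of `K` is the center of `G` -/
  centralizer : Subgroup.centralizer (K : Set G) = Subgroup.center G
  /-- `S` is contained in `K` -/
  le : S ≤ K
  /-- `S` is normalized by `K` -/
  norm : ∀ k ∈ K, S.map (MulAut.conj k).toMonoidHom = S
  /-- `S` is perfect -/
  perfect : ⁅S, S⁆ = S
  /-- `K` is generated by the conjugates of `S` -/
  gen : ⨆ g : G, S.map (MulAut.conj g).toMonoidHom = K
  /-- distinct conjugates commute -/
  comm : ∀ g : G, S.map (MulAut.conj g).toMonoidHom ≠ S →
    ∀ x ∈ S.map (MulAut.conj g).toMonoidHom, ∀ y ∈ S, x * y = y * x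
  /-- `S / Z(S)` is simple -/
  simple : IsSimpleGroup (S ⧸ Subgroup.center S)
  /-- `S / Z(S)` is not settled -/
  unsettled : ¬ Settled p (S ⧸ Subgroup.center S)

/-- the definition in terms of the structures of the library -/
lemma ch_of {p : ℕ} {F : Type} [Group F] (h : CharBNAt p F) :
    ∃ (r : ℕ) (_ : r.Prime) (P U N : Subgroup F), Pool.Agent.Helper68.LI.Ch p r P U N := by
  obtain ⟨r, P, U, N, hr, ⟨a1, a2, a3, a4, a5, a6, a7, a8, a9⟩, h1, h2, m, V, h3, h4, h5⟩ := h
  refine ⟨r, hr, P, U, N, ⟨a1, a2, a3, a4, a5, a6, a7, a8, a9⟩, h1, h2, m, V, h3, h4,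
    fun i hi => (h5 i hi).1, fun i hi => (h5 i hi).2.1, fun i hi => ?_,
    fun i hi j hj => (h5 i hi).2.2.2 j hj⟩
  rw [h4]
  exact (h5 i hi).2.2.1

/-- one step of the induction -/
lemma one_step (p : ℕ) [Fact p.Prime] (G : Type) [Group G] [Finite G]
    (h : Core p G → McKayCongr p G)
    (ih : ∀ (X : Type) [Group X] [Finite X],
      ((Subgroup.center X).index < (Subgroup.center G).index ∨
        ((Subgroup.center X).index ≤ (Subgroup.center G).index ∧ Nat.card X < Nat.card G)) →
      McKayCongr p X) : McKayCongr p G := by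
  by_cases h1 : ∃ P : Sylow p G, (P : Subgroup G).Normal
  · obtain ⟨P, hP⟩ := h1
    exact mcKay_of_normal P hP
  by_cases h2 : ∀ M : Subgroup G, M.Normal → ¬ M ≤ Subgroup.center G → ∀ P : Sylow p G,
      M ⊔ Subgroup.normalizer (P : Set G) = ⊤
  swap
  · push Not at h2
    obtain ⟨M, hM, hMc, P, hP⟩ := h2
    exact case_frattini ih M hM hMc P hP
  by_cases h3 : IsCyclic (Subgroup.center G)
  swap
  · exact case_cyclic ih h3
  by_cases h4 : p ∣ Nat.card (Subgroup.center G)
  · exact case_coprime ih h4
  obtain ⟨P⟩ : Nonempty (Sylow p G) := inferInstance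
  have hP : Subgroup.normalizer (P : Set G) ≠ ⊤ := by
    intro hP
    exact h1 ⟨P, Subgroup.normalizer_eq_top_iff.1 hP⟩
  have hop : ∀ K : Subgroup G, K.Normal → IsPGroup p K → K = ⊥ := by
    intro K hK hKp
    have hKc : K ≤ Subgroup.center G := by
      by_contra hKc
      exact hP (normal_p_normalizer K hK hKp P (h2 K hK hKc P))
    by_contra hne
    have hd : p ∣ Nat.card K := by
      obtain ⟨n, hn⟩ := IsPGroup.iff_card.1 hKp
      have h5 := (Subgroup.one_lt_card_iff_ne_bot K).2 hne
      rcases n with _ | n
      · rw [hn] at h5; simp at h5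
      · rw [hn]; exact dvd_pow_self p (Nat.succ_ne_zero n)
    exact h4 (hd.trans (Subgroup.card_dvd_of_le hKc))
  by_cases h5 : ∀ A : Subgroup G, A.Normal → IsMulCommutative A → A ≤ Subgroup.center G
  swap
  · push Not at h5
    obtain ⟨A, hA, hAc, hAn⟩ := h5
    have hAp : ¬ p ∣ Nat.card A := by
      intro hd
      obtain ⟨a, ha⟩ := exists_prime_orderOf_dvd_card' p hd
      set K : Subgroup G := (powMonoidHom p : A →* A).ker.map A.subtype with hK
      have hKn : K.Normal := by
        refine ⟨?_⟩
        rintro _ ⟨b, hb, rfl⟩ g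
        refine ⟨⟨g * b * g⁻¹, hA.conj_mem b b.2 g⟩, ?_, rfl⟩
        change (_ : A) ^ p = 1
        apply Subtype.ext
        change (g * (b : G) * g⁻¹) ^ p = 1
        have hb' : (b : G) ^ p = 1 := congrArg Subtype.val (show b ^ p = 1 from hb)
        rw [conj_pow, hb', mul_one, mul_inv_cancel]
      have hKp : IsPGroup p K := by
        rintro ⟨_, b, hb, rfl⟩
        refine ⟨1, ?_⟩
        apply Subtype.ext
        have hb' : (b : G) ^ p = 1 := congrArg Subtype.val (show b ^ p = 1 from hb)
        change (b : G) ^ p ^ 1 = 1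
        rw [pow_one, hb']
      have hbot := hop K hKn hKp
      have haK : (a : G) ∈ K := by
        refine ⟨a, ?_, rfl⟩
        change a ^ p = 1
        rw [← ha, pow_orderOf_eq_one]
      rw [hbot, Subgroup.mem_bot] at haK
      have ha1 : a = 1 := Subtype.ext haK
      rw [ha1, orderOf_one] at ha
      exact (Fact.out : p.Prime).one_lt.ne ha
    exact case_abelian_coprime A hA hAp P (h2 A hA hAn P)
  apply h
  refine ⟨?_, hop, h3, h4, h5, h2, ?_⟩
  · by_contra hd
    apply hP
    have hbot : (P : Subgroup G) = ⊥ := by
      rw [← Subgroup.card_eq_one]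
      obtain ⟨n, hn⟩ := IsPGroup.iff_card.1 P.isPGroup'
      rcases n with _ | n
      · rw [hn, pow_zero]
      · exfalso
        apply hd
        refine dvd_trans ?_ (Subgroup.card_subgroup_dvd_card (P : Subgroup G))
        rw [hn]; exact dvd_pow_self p (Nat.succ_ne_zero n)
    refine Subgroup.normalizer_eq_top_iff.2 ?_
    rw [hbot]; infer_instance
  · intro M hM hd
    apply le_antisymm
    · by_contra hC
      have hCn : (Subgroup.centralizer (M : Set G)).Normal := inferInstance
      have hG := h2 _ hCn hC P
      -- `P ∩ M` is normal in `G`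
      have hPMn : ((P : Subgroup G) ⊓ M).Normal := by
        have h6 : Subgroup.centralizer (M : Set G) ⊔ Subgroup.normalizer (P : Set G) ≤
            Subgroup.normalizer (((P : Subgroup G) ⊓ M : Subgroup G) : Set G) := by
          rw [sup_le_iff]
          constructor
          · have key : ∀ c ∈ Subgroup.centralizer (M : Set G), ∀ x ∈ M, c * x * c⁻¹ = x := by
              intro c hc x hx
              rw [← Subgroup.mem_centralizer_iff.1 hc x hx, mul_inv_cancel_right]
            intro c hc
            refine (Subgroup.mem_normalizer_iff (H := (P : Subgroup G) ⊓ M)).2 (fun x => ?_)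
            constructor
            · intro hx
              rw [key c hc x hx.2]; exact hx
            · intro hx
              have h7 := key c⁻¹ (Subgroup.inv_mem _ hc) _ hx.2
              have h8 : c⁻¹ * (c * x * c⁻¹) * c⁻¹⁻¹ = x := by group
              rw [h8] at h7
              rw [h7]; exact hx
          · intro n hn
            refine (Subgroup.mem_normalizer_iff (H := (P : Subgroup G) ⊓ M)).2 (fun x => ?_)
            constructor
            · rintro ⟨hx1, hx2⟩
              exact ⟨normalizer_conj_mem' hn hx1, hM.conj_mem x hx2 n⟩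
            · rintro ⟨hx1, hx2⟩
              have h7 := normalizer_conj_mem hn hx1
              have h8 := hM.conj_mem _ hx2 n⁻¹
              have h9 : n⁻¹ * (n * x * n⁻¹) * n = x := by group
              have h10 : n⁻¹ * (n * x * n⁻¹) * n⁻¹⁻¹ = x := by group
              rw [h9] at h7
              rw [h10] at h8
              exact ⟨h7, h8⟩
        rw [hG] at h6
        exact Subgroup.normalizer_eq_top_iff.1 (top_le_iff.1 h6)
      have hPMp : IsPGroup p ((P : Subgroup G) ⊓ M : Subgroup G) :=
        P.isPGroup'.to_le inf_le_left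
      have hbot := hop _ hPMn hPMp
      -- an element of order `p` of `M` lies in a Sylow subgroup, hence conjugate into `P`
      obtain ⟨a, ha⟩ := exists_prime_orderOf_dvd_card' p hd
      have haG : orderOf (a : G) = p := by rw [Subgroup.orderOf_coe]; exact ha
      have hz : IsPGroup p (Subgroup.zpowers (a : G)) := by
        rw [IsPGroup.iff_card]
        exact ⟨1, by rw [Nat.card_zpowers, haG, pow_one]⟩
      obtain ⟨Q, hQ⟩ := hz.exists_le_sylow
      obtain ⟨g, hg⟩ := MulAction.exists_smul_eq G Q P
      have hmem : g * (a : G) * g⁻¹ ∈ (P : Subgroup G) ⊓ M := by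
        refine ⟨?_, hM.conj_mem _ a.2 g⟩
        rw [← hg, Sylow.smul_def, Sylow.pointwise_smul_def]
        exact Subgroup.smul_mem_pointwise_smul _ (MulAut.conj g) _ (hQ (Subgroup.mem_zpowers _))
      rw [hbot, Subgroup.mem_bot, conj_eq_one_iff] at hmem
      rw [hmem, orderOf_one] at haG
      exact (Fact.out : p.Prime).one_lt.ne haG
    · intro z hz
      rw [Subgroup.mem_centralizer_iff]
      intro x _
      exact Subgroup.mem_center_iff.1 hz x

/-- the last step: the groups of the class `Core p` -/
lemma core_step (p : ℕ) [Fact p.Prime] (G : Type) [Group G] [Finite G] (hG : Core p G)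
    (h : (∃ K S : Subgroup G, Layer p K S) → McKayCongr p G)
    (ih : ∀ (X : Type) [Group X] [Finite X],
      ((Subgroup.center X).index < (Subgroup.center G).index ∨
        ((Subgroup.center X).index ≤ (Subgroup.center G).index ∧ Nat.card X < Nat.card G)) →
      McKayCongr p X) : McKayCongr p G := by
  by_contra hn
  obtain ⟨K, S, h1, h2, h3, h4, hc, h5, h6, h7, h8⟩ := Pool.Agent.Helper81.MR.layer
    ⟨hG.dvd_card, hG.opcore, hG.cyclic, hG.coprime, hG.abelian, hG.supplement⟩ ih hn hG.centralizer
  apply hn
  refine h ⟨K, S, h1, h2, h3, h4, hc.le, hc.norm, hc.perf, hc.gen, hc.comm, h5, ?_⟩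
  intro hs
  apply h8
  rcases hs with hs | ⟨hp5, hs⟩
  · exact Pool.Agent.Helper81.MR.good_cyclic (Pool.Agent.Helper81.MR.perf_top hc.perf) h6 h7 hs
  · refine Pool.Agent.Helper81.MR.good_big hp5 (Pool.Agent.Helper81.MR.perf_top hc.perf) h5 h6 h7 ?_
    rcases hs with hs | hs | hs | hs
    · exact Or.inl hs
    · exact Or.inr (Or.inl hs)
    · exact Or.inr (Or.inr (Or.inl hs))
    · exact Or.inr (Or.inr (Or.inr (ch_of hs)))

/-- Q1 for the prime `p` holds for all finite groups if and only if it holds for the groups of the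
class `Core p` which have subgroups `K` and `S` as described in `Layer`. -/
theorem result (p : ℕ) [Fact p.Prime] :
    (∀ (G : Type) [Group G] [Finite G], McKayCongr p G) ↔
      ∀ (G : Type) [Group G] [Finite G], Core p G → (∃ K S : Subgroup G, Layer p K S) →
        McKayCongr p G := by
  constructor
  · intro h G _ _ _ _
    exact h G
  · intro h
    have key : ∀ n : ℕ, ∀ m : ℕ, ∀ (G : Type) [Group G] [Finite G],
        (Subgroup.center G).index = n → Nat.card G = m → McKayCongr p G := by
      intro n
      induction n using Nat.strong_induction_on with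
      | _ n ihn =>
        intro m
        induction m using Nat.strong_induction_on with
        | _ m ihm =>
          intro G _ _ hn hm
          have ih : ∀ (X : Type) [Group X] [Finite X],
              ((Subgroup.center X).index < (Subgroup.center G).index ∨
                ((Subgroup.center X).index ≤ (Subgroup.center G).index ∧ Nat.card X < Nat.card G)) →
              McKayCongr p X := by
            intro X _ _ hX
            rw [hn, hm] at hX
            rcases hX with hX | ⟨hX1, hX2⟩
            · exact ihn _ hX _ X rfl rfl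
            · rcases hX1.lt_or_eq with hlt | heq
              · exact ihn _ hlt _ X rfl rfl
              · exact ihm _ hX2 X heq rfl
          exact one_step p G (fun hG => core_step p G hG (h G hG) ih) ih
    intro G _ _
    exact key _ _ G rfl rfl

end Pool.Agent.Results.MP_5ecade_al.MinimalReduction
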