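import Pool.Agent.Helper24.S7.Final
import Pool.Agent.Helper42.IR.F.HII
import Pool.Agent.Helper42.CY.FMain

/-!
# Reduction of the congruence form of the McKay statement to simple groups

`result`: Q1 holds for the prime `p` and every finite group `G` which has a subnormal series each of
whose factors is abelian, or has cyclic Sylow `p`-subgroups, or is such that all nonabelian simple
groups involved in it with noncyclic Sylow `p`-subgroups are `p`-good. In particular there is no
hypothesis if all nonabelian composition factors of `G` have cyclic Sylow `p`-subgroups.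
-/

namespace Pool.Agent.Results.MP_5ecade_al.SimpleReduction

/-- The set of irreducible complex characters of `G`. -/
def Irr (G : Type) [Group G] : Set (G → ℂ) :=
  {χ | ∃ (V : Type) (_ : AddCommGroup V) (_ : Module ℂ V) (_ : FiniteDimensional ℂ V)
    (ρ : Representation ℂ G V), ρ.IsIrreducible ∧ χ = ρ.character}

/-- The set of irreducible complex characters of `G` of degree not divisible by `p`. -/
def IrrP (p : ℕ) (G : Type) [Group G] : Set (G → ℂ) :=
  {χ | χ ∈ Irr G ∧ ∃ n : ℕ, χ 1 = n ∧ ¬ p ∣ n}

/-- The degree of a character. -/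
noncomputable def deg {G : Type} [Group G] (χ : G → ℂ) : ℕ := ⌊(χ 1).re⌋₊

/-- Q1 for the prime `p` and the group `G`: for every Sylow `p`-subgroup `P` of `G` there is a
bijection from the irreducible characters of `G` of degree prime to `p` onto those of the
normalizer of `P` which preserves the degree up to sign modulo `p`. -/
def McKayCongr (p : ℕ) (G : Type) [Group G] : Prop :=
  ∀ P : Sylow p G, ∃ e : IrrP p G ≃ IrrP p (Subgroup.normalizer (P : Set G)),
    ∀ χ : IrrP p G, ∃ m n : ℕ, χ.1 1 = m ∧ (e χ).1 1 = n ∧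
      ((m : ℤ) ≡ n [ZMOD p] ∨ (m : ℤ) ≡ -n [ZMOD p])

/-- The automorphisms of `K` which map `T` onto itself and fix the function `θ`. -/
def AutTh {K : Type} [Group K] (T : Subgroup K) (θ : K → ℂ) : Subgroup (MulAut K) where
  carrier := {α | (∀ x, α x ∈ T ↔ x ∈ T) ∧ ∀ x, θ (α x) = θ x}
  one_mem' := ⟨fun _ => Iff.rfl, fun _ => rfl⟩
  mul_mem' := by
    rintro a b ⟨ha, ha'⟩ ⟨hb, hb'⟩
    refine ⟨fun x => ?_, fun x => ?_⟩
    · rw [MulAut.mul_apply, ha, hb]
    · rw [MulAut.mul_apply, ha', hb']
  inv_mem' := by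
    rintro a ⟨ha, ha'⟩
    refine ⟨fun x => ?_, fun x => ?_⟩
    · rw [← ha, MulAut.apply_inv_self]
    · rw [← ha', MulAut.apply_inv_self]

/-- The characters `θ` of `K` and `φ` of `T` have the same Clifford theory with respect to the
automorphisms of `K` stabilizing `T` and `θ`: there are a representation `D` of `K × T` with
character `θ(k) φ(t⁻¹)` and a representation `R` of this automorphism group on the same space such
that `R α` implements the action of `α` on `K × T`, and `R α = D (t, t)` if `α` is conjugation with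
`t ∈ T`. -/
def Matched {K : Type} [Group K] (T : Subgroup K) (θ : K → ℂ) (φ : T → ℂ) : Prop :=
  ∃ (d : ℕ) (D : K × T →* Matrix (Fin d) (Fin d) ℂ)
    (R : AutTh T θ →* Matrix (Fin d) (Fin d) ℂ),
    (∀ k t, (D (k, t)).trace = θ k * φ t⁻¹) ∧
    (∀ (α : AutTh T θ) (k : K) (t t' : T), (t' : K) = α.1 t →
      R α * D (k, t) = D (α.1 k, t') * R α) ∧
    (∀ (α : AutTh T θ) (t : T), α.1 = MulAut.conj (t : K) → R α = D (t, t))

/-- The inductive McKay condition for the group `K` and the prime `p`, with degrees congruent up to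
sign modulo `p`: for every Sylow subgroup `Q` of `K` there are a proper subgroup `T` containing the
normalizer of `Q`, stable under all automorphisms which stabilize `Q`, and a bijection from the
irreducible characters of `K` of degree prime to `p` onto those of `T`, equivariant under the
automorphisms which stabilize `T`, preserving degrees up to sign modulo `p`, such that
corresponding characters are matched. -/
def Good (p : ℕ) (K : Type) [Group K] : Prop :=
  ∀ Q : Sylow p K, ∃ T : Subgroup K, Subgroup.normalizer (Q : Set K) ≤ T ∧ T ≠ ⊤ ∧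
    (∀ α : MulAut K, (∀ x, α x ∈ Q ↔ x ∈ Q) → ∀ x, α x ∈ T ↔ x ∈ T) ∧
    ∃ F : IrrP p K ≃ IrrP p T,
      (∀ α : MulAut K, (∀ x, α x ∈ T ↔ x ∈ T) → ∀ θ θ' : IrrP p K,
        (∀ x, θ'.1 x = θ.1 (α x)) → ∀ t t' : T, (t' : K) = α t → (F θ').1 t = (F θ).1 t') ∧
      (∀ θ, (deg (F θ).1 : ZMod p) ^ 2 = (deg θ.1 : ZMod p) ^ 2) ∧
      ∀ θ, Matched T θ.1 (F θ).1

/-- The simple group `S` is `p`-good: all finite perfect central extensions `K` of `S` by a group of
order prime to `p` satisfy `Good p K`. -/
def PGood (p : ℕ) (S : Type) [Group S] : Prop :=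
  ∀ (K : Type) [Group K] [Finite K], ⁅(⊤ : Subgroup K), (⊤ : Subgroup K)⁆ = ⊤ →
    Nonempty ((K ⧸ Subgroup.center K) ≃* S) → ¬ p ∣ Nat.card (Subgroup.center K) → Good p K

/-- `S` is involved in `G`: it is isomorphic to a section of `G`. -/
def Involved (S G : Type) [Group S] [Group G] : Prop :=
  ∃ (H : Subgroup G) (L : Subgroup H) (_ : L.Normal), Nonempty ((H ⧸ L) ≃* S)

/-- The group `F` is harmless for `p`: it is abelian, or its Sylow `p`-subgroups are cyclic, or all
nonabelian simple groups involved in `F` with noncyclic Sylow `p`-subgroups are `p`-good. -/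
def Harmless (p : ℕ) (F : Type) [Group F] : Prop :=
  (∀ a b : F, a * b = b * a) ∨ (∀ P : Sylow p F, IsCyclic P) ∨
    ∀ (S : Type) [Group S], IsSimpleGroup S → (¬ ∀ a b : S, a * b = b * a) →
      Involved S F → (¬ ∀ P : Sylow p S, IsCyclic P) → PGood p S

section proof

open Pool.Agent.Helper24.S7 (InCC)

private lemma lift_range {H Y S : Type} [Group H] [Group Y] [Group S] (ψ : H →* Y) (φ : H →* S)
    (hφ : Function.Surjective φ) (hker : ψ.rangeRestrict.ker ≤ φ.ker) :
    ∃ g : ψ.range →* S, Function.Surjective g := by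
  let g : ψ.range →* S := ψ.rangeRestrict.liftOfSurjective ψ.rangeRestrict_surjective ⟨φ, hker⟩
  refine ⟨g, fun s => ?_⟩
  obtain ⟨x, rfl⟩ := hφ s
  exact ⟨ψ.rangeRestrict x,
    MonoidHom.liftOfRightInverse_comp_apply _ _ _ ⟨φ, hker⟩ x⟩

/-- a simple group involved in `G` is involved in the normal subgroup `N` or in the quotient -/
private lemma involved_ext {G S : Type} [Group G] [Group S] (hS : IsSimpleGroup S)
    (N : Subgroup G) [N.Normal] (hinv : Involved S G) : Involved S N ∨ Involved S (G ⧸ N) := by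
  obtain ⟨H, L, hL, ⟨e⟩⟩ := hinv
  haveI := hL
  let φ : H →* S := e.toMonoidHom.comp (QuotientGroup.mk' L)
  have hφ : Function.Surjective φ := e.surjective.comp (QuotientGroup.mk'_surjective L)
  have hnorm : ((N.subgroupOf H).map φ).Normal := Subgroup.Normal.map inferInstance φ hφ
  rcases hS.eq_bot_or_eq_top_of_normal _ hnorm with hb | ht
  · right
    let ψ : H →* G ⧸ N := (QuotientGroup.mk' N).comp H.subtype
    have hker : ψ.rangeRestrict.ker ≤ φ.ker := by
      intro x hx
      rw [MonoidHom.mem_ker] at hx ⊢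
      have h1 : (QuotientGroup.mk' N) (x : G) = 1 := congrArg Subtype.val hx
      have h2 : (x : G) ∈ N := (QuotientGroup.eq_one_iff (x : G)).1 h1
      have h3 : φ x ∈ (N.subgroupOf H).map φ :=
        Subgroup.mem_map_of_mem φ (Subgroup.mem_subgroupOf.2 h2)
      rwa [hb, Subgroup.mem_bot] at h3
    obtain ⟨g, hg⟩ := lift_range ψ φ hφ hker
    exact ⟨ψ.range, g.ker, inferInstance, ⟨QuotientGroup.quotientKerEquivOfSurjective g hg⟩⟩
  · left
    let θ : H.subgroupOf N →* H :=
      (N.subtype.comp (H.subgroupOf N).subtype).codRestrict H (fun x => x.2)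
    have hθ : Function.Surjective (φ.comp θ) := by
      intro s
      have hs : s ∈ (N.subgroupOf H).map φ := by rw [ht]; exact Subgroup.mem_top s
      obtain ⟨x, hx, rfl⟩ := hs
      have hxN : (x : G) ∈ N := Subgroup.mem_subgroupOf.1 hx
      exact ⟨⟨⟨x, hxN⟩, Subgroup.mem_subgroupOf.2 x.2⟩, rfl⟩
    exact ⟨H.subgroupOf N, (φ.comp θ).ker, inferInstance,
      ⟨QuotientGroup.quotientKerEquivOfSurjective (φ.comp θ) hθ⟩⟩

private lemma inCC_ext {p : ℕ} {G : Type} [Group G] (N : Subgroup G) [N.Normal]
    (h1 : InCC p N) (h2 : InCC p (G ⧸ N)) : InCC p G := by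
  intro S _ hS hn hinv hp
  rcases involved_ext hS N hinv with h | h
  · exact h1 S hS hn h hp
  · exact h2 S hS hn h hp

private lemma inCC_congr {p : ℕ} {G G' : Type} [Group G] [Group G'] [Finite G] [Finite G']
    (e : G ≃* G') (h : InCC p G) : InCC p G' :=
  (Pool.Agent.Helper24.S7.inCC_class p).down G G' e.toMonoidHom e.surjective h

/-- simple groups with cyclic Sylow subgroups of order at least `p ^ 2` are `p`-good -/
private lemma pgood {p : ℕ} [Fact p.Prime] (S : Type) [Group S]
    (hc : ∀ P : Sylow p S, IsCyclic P) (h2 : p ^ 2 ∣ Nat.card S) :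
    Pool.Agent.Helper24.S7.PGood p S := by
  intro K _ _ hperf he hz
  exact Pool.Agent.Helper42.CY.pgood_of_cyclic S hc h2 K hperf he hz

private lemma harmless_inCC {p : ℕ} [Fact p.Prime] {F : Type} [Group F] [Finite F]
    (h : Harmless p F) : InCC p F := by
  rcases h with h | h | h
  · intro S _ hS hn hinv hp
    obtain ⟨H, L, hL, ⟨e⟩⟩ := hinv
    exfalso
    apply hn
    intro a b
    obtain ⟨x, rfl⟩ := e.surjective a
    obtain ⟨y, rfl⟩ := e.surjective b
    obtain ⟨x, rfl⟩ := QuotientGroup.mk'_surjective L x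
    obtain ⟨y, rfl⟩ := QuotientGroup.mk'_surjective L y
    rw [← map_mul, ← map_mul, ← map_mul, ← map_mul]
    have hxy : x * y = y * x := Subtype.ext (h x y)
    rw [hxy]
  · intro S _ hS hn hinv hp
    exact pgood S (Pool.Agent.Helper42.CY.cyclic_section h hinv) hp
  · intro S _ hS hn hinv hp
    by_cases hc : ∀ P : Sylow p S, IsCyclic P
    · exact pgood S hc hp
    · exact h S hS hn hinv hc

private lemma inCC_series {p : ℕ} [Fact p.Prime] {G : Type} [Group G] [Finite G] (H : ℕ → Subgroup G)
    (h0 : H 0 = ⊥) (n : ℕ) (hs : ∀ i < n, H i ≤ H (i + 1) ∧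
      ∃ _ : ((H i).subgroupOf (H (i + 1))).Normal,
        Harmless p (H (i + 1) ⧸ (H i).subgroupOf (H (i + 1)))) :
    ∀ i ≤ n, InCC p (H i) := by
  intro i
  induction i with
  | zero =>
    intro _
    apply harmless_inCC
    left
    have : Subsingleton (H 0) := by
      rw [h0]
      infer_instance
    intro a b
    exact Subsingleton.elim _ _
  | succ i ih =>
    intro hi
    obtain ⟨h1, h2, h3⟩ := hs i hi
    exact inCC_ext ((H i).subgroupOf (H (i + 1)))
      (inCC_congr (Subgroup.subgroupOfEquivOfLe h1).symm (ih (Nat.le_of_succ_le hi)))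
      (harmless_inCC h3)

end proof

/-- Q1 holds for `p` and every finite group `G` with a series
`1 = H 0 ⊴ H 1 ⊴ ... ⊴ H n = G` each of whose factors is abelian, or has cyclic Sylow
`p`-subgroups, or is such that all nonabelian simple groups involved in it with noncyclic Sylow
`p`-subgroups are `p`-good. -/
theorem result (p : ℕ) [Fact p.Prime] (G : Type) [Group G] [Finite G] (n : ℕ)
    (H : ℕ → Subgroup G) (h0 : H 0 = ⊥) (h1 : H n = ⊤)
    (hs : ∀ i < n, H i ≤ H (i + 1) ∧ ∃ _ : ((H i).subgroupOf (H (i + 1))).Normal,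
      Harmless p (H (i + 1) ⧸ (H i).subgroupOf (H (i + 1)))) :
    McKayCongr p G := by
  have h2 := inCC_series H h0 n hs n le_rfl
  rw [h1] at h2
  exact Pool.Agent.Helper24.S7.final_of (fun K _ _ => Pool.Agent.Helper42.IR.F.hII K) G
    (inCC_congr (Subgroup.topEquiv (G := G)) h2)

end Pool.Agent.Results.MP_5ecade_al.SimpleReduction
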